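import Pool.Agent.H56.FT.Ext

/-!
# The twin criterion in final form
-/

set_option autoImplicit false
set_option maxHeartbeats 4000000

open Finset

namespace Pool.Agent.H56.FT

open Pool.Agent.H54.Frank Pool.Agent.H12.Fr

variable {V ι : Type} [Fintype V] [DecidableEq V] [DecidableEq ι]

/-- reduction to minors on transversals of odd classes -/
theorem opp_of_minors {f : Finset V → ℝ} (h : Data f) {c : V → ι} (hc : Twins f c)
    (H : ∀ S T : Finset V, S ⊆ T → 1 < #(T \ S) → f S = f T →
      (∀ X, S ⊂ X → X ⊂ T → f S < f X) → Set.InjOn c (T \ S : Finset V) →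
      (∀ i ∈ T \ S, Odd #(Finset.univ.filter fun j => c j = c i)) → Opposite (minor f S T)) :
    Opp f ∅ Finset.univ := by
  obtain ⟨x, hx, hmax⟩ := exists_max h c
  refine opp_of_blocks h hc hx hmax fun S T hb h0 hcard => ?_
  have hd := loc_data h hx.2.1 hb.ss.1 hb.lo hb.hi h0
  have hu : ∀ i ∈ T \ S, Uniq c x i := by
    intro i hi
    obtain ⟨b, hb1, hb2⟩ := Finset.exists_mem_ne hcard i
    exact block_unique h hc hx hmax hb hi hb1 hb2.symm
  have hlo := hb.lo
  have hhi := hb.hi
  unfold Tight at hlo hhi
  refine opp_of_minor hb.ss.1 hd (H S T hb.ss.1 hcard ?_ (fun X h1 h2 => ?_) ?_ fun i hi => ?_)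
  · have h1 := sum_zero_on h0 hb.ss.1 (Finset.Subset.refl T)
    linarith
  · have h3 := sum_zero_on h0 h1.1 h2.1
    have h4 := hb.mid X h1 h2
    have h5 := hx.2.1.1 X
    unfold Tight at h4
    have h7 : ∑ i ∈ X, x i < f X := lt_of_le_of_ne h5 h4
    linarith
  · intro a ha b hb' hab
    by_contra hne
    exact (hu a ha).2 b hab.symm (Ne.symm hne) (hu b hb').1
  · exact block_odd hx (hu i hi).1 (hu i hi).2

/-- Frank's statement for at most as many elements as there are odd classes is enough -/
theorem opp_of_frankOn {f : Finset V → ℝ} (h : Data f) {c : V → ι} (hc : Twins f c)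
    (H : ∀ (W : Type) [Fintype W] [DecidableEq W], Fintype.card W ≤ #(oddC c) → FrankOn W) :
    Opp f ∅ Finset.univ := by
  obtain ⟨x, hx, hmax⟩ := exists_max h c
  refine opp_of_blocks h hc hx hmax fun S T hb h0 hcard => ?_
  have hd := loc_data h hx.2.1 hb.ss.1 hb.lo hb.hi h0
  refine opp_of_minor hb.ss.1 hd (frankOn_apply (H _ ?_) (minor_data hb.ss.1 hd))
  rw [Fintype.card_coe]
  exact block_card h hc hx hmax hb hcard

/-- at most one odd class: balanced opposite vertices -/
theorem balanced_of_one {f : Finset V → ℝ} (h : Data f) {c : V → ι} (hc : Twins f c)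
    (h1 : #(oddC c) ≤ 1) : ∃ x : V → ℝ, x ∈ Set.extremePoints ℝ (base f) ∧
      -x ∈ Set.extremePoints ℝ (base f) ∧
      ∀ C : ι, ∑ i ∈ Finset.univ.filter (fun i => c i = C), x i = 0 := by
  obtain ⟨x, hx, hmax⟩ := exists_max h c
  have no : ∀ S T, Block f x S T → ¬ 1 < #(T \ S) := fun S T hb h2 =>
    absurd (block_card h hc hx hmax hb h2) (by omega)
  obtain ⟨v, w, v1, w1, e1⟩ := pair_of_tight h hc hx hmax
    (fun S T hb _ h2 => absurd h2 (no S T hb)) ∅ Finset.univ
    (Finset.subset_univ _) (tight_empty h.empty x) (tight_univ hx.2.1)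
  -- `x` itself follows a chain
  have hxc : MChain f x ∅ Finset.univ := by
    have key : ∀ n : ℕ, ∀ S T : Finset V, S ⊆ T → #(T \ S) = n → Tight f x S → Tight f x T →
        MChain f x S T := by
      intro n
      induction n using Nat.strong_induction_on with
      | _ n ih =>
        intro S T hST hn hS hT
        rcases eq_or_ne S T with rfl | hne
        · exact MChain.refl _
        have hss : S ⊂ T := lt_of_le_of_ne hST hne
        by_cases hmid : ∀ X, S ⊂ X → X ⊂ T → ¬ Tight f x X
        · have hb : Block f x S T := ⟨hss, hS, hT, hmid⟩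
          obtain ⟨a, ha, ha'⟩ := Finset.exists_of_ssubset hss
          have haTS : a ∈ T \ S := Finset.mem_sdiff.2 ⟨ha, ha'⟩
          have h2 : T \ S = {a} := by
            have h2 : #(T \ S) = 1 := by
              have h3 := Finset.card_pos.2 ⟨a, haTS⟩
              have h4 := no S T hb
              omega
            obtain ⟨b, hb⟩ := Finset.card_eq_one.1 h2
            rw [hb, Finset.mem_singleton] at haTS
            rw [hb, haTS]
          have h3 : T = insert a S := by
            rw [← Finset.union_sdiff_of_subset hST, h2]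
            ext i; simp only [Finset.mem_union, Finset.mem_singleton, Finset.mem_insert]; tauto
          rw [h3]
          refine MChain.step (MChain.refl _) ha' ?_
          rw [← h3]
          unfold Tight at hS hT
          rw [← hS, ← hT, h3, Finset.sum_insert ha']
          ring
        · push Not at hmid
          obtain ⟨X, hX1, hX2, hX⟩ := hmid
          have c1 : #(X \ S) < n := by
            rw [← hn]
            refine Finset.card_lt_card ⟨Finset.sdiff_subset_sdiff hX2.1 (Finset.Subset.refl _),
              fun hcon => ?_⟩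
            obtain ⟨a, ha, ha'⟩ := Finset.exists_of_ssubset hX2
            have : a ∈ T \ S := Finset.mem_sdiff.2 ⟨ha, fun h1 => ha' (hX1.1 h1)⟩
            exact ha' (Finset.mem_sdiff.1 (hcon this)).1
          have c2 : #(T \ X) < n := by
            rw [← hn]
            refine Finset.card_lt_card ⟨Finset.sdiff_subset_sdiff (Finset.Subset.refl _) hX1.1,
              fun hcon => ?_⟩
            obtain ⟨a, ha, ha'⟩ := Finset.exists_of_ssubset hX1
            have : a ∈ T \ S := Finset.mem_sdiff.2 ⟨hX2.1 ha, ha'⟩
            exact (Finset.mem_sdiff.1 (hcon this)).2 ha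
          exact (ih _ c1 S X hX1.1 rfl hS hX).trans (ih _ c2 X T hX2.1 rfl hX hT)
    exact key _ ∅ Finset.univ (Finset.subset_univ _) rfl (tight_empty h.empty x)
      (tight_univ hx.2.1)
  have hneg : MChain f (-x) ∅ Finset.univ := by
    refine chain_of_counts hc hxc fun C r => ?_
    rw [Nat.card_eq_fintype_card, Nat.card_eq_fintype_card, Fintype.card_subtype,
      Fintype.card_subtype]
    have h2 := count_neg hx.1 (hx.2.2 C) r
    rw [Finset.filter_filter, Finset.filter_filter] at h2
    exact h2
  exact ⟨x, hxc.extreme h.sub h.empty, hneg.extreme h.sub h.empty, hx.2.2⟩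

/-- the partition with one class `{i, j}` and singletons -/
lemma oddC_two {i j : V} (hij : i ≠ j) :
    #(oddC fun k : V => if k = j then i else k) + 2 ≤ Fintype.card V := by
  have h1 : oddC (fun k : V => if k = j then i else k) ⊆ (Finset.univ.erase i).erase j := by
    intro k hk
    unfold oddC at hk
    rw [Finset.mem_filter, Finset.mem_image] at hk
    obtain ⟨⟨l, -, hl⟩, hodd⟩ := hk
    rw [Finset.mem_erase, Finset.mem_erase]
    refine ⟨?_, ?_, Finset.mem_univ _⟩
    · rintro rfl
      by_cases h2 : l = k
      · rw [if_pos h2] at hl; exact hij hl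
      · rw [if_neg h2] at hl; exact h2 hl
    · rintro rfl
      have h3 : (Finset.univ.filter fun m : V => (if m = j then k else m) = k) = {k, j} := by
        ext m
        rw [Finset.mem_filter, Finset.mem_insert, Finset.mem_singleton]
        constructor
        · rintro ⟨-, h4⟩
          by_cases h5 : m = j
          · exact Or.inr h5
          · rw [if_neg h5] at h4; exact Or.inl h4
        · rintro (h4 | h4)
          · refine ⟨Finset.mem_univ _, ?_⟩
            rw [h4, if_neg hij]
          · exact ⟨Finset.mem_univ _, by rw [if_pos h4]⟩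
      rw [h3, Finset.card_pair hij] at hodd
      exact absurd hodd (by decide)
  have h2 := Finset.card_le_card h1
  rw [Finset.card_erase_of_mem (Finset.mem_erase.2 ⟨hij.symm, Finset.mem_univ _⟩),
    Finset.card_erase_of_mem (Finset.mem_univ _), Finset.card_univ] at h2
  have h3 : 2 ≤ Fintype.card V := by
    have := Finset.card_le_univ ({i, j} : Finset V)
    rwa [Finset.card_pair hij] at this
  omega

omit [Fintype V] [DecidableEq ι] in
lemma twins_two {f : Finset V → ℝ} {i j : V}
    (h : ∀ X : Finset V, f (X.image (Equiv.swap i j)) = f X) :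
    Twins f fun k : V => if k = j then i else k := by
  intro k l hkl X
  by_cases h1 : k = j
  · by_cases h2 : l = j
    · rw [h1, h2, Equiv.swap_self]
      congr 1
      exact Finset.image_id
    · simp only [h1, h2, if_true, if_false] at hkl
      rw [h1, ← hkl, Equiv.swap_comm]
      exact h X
  · by_cases h2 : l = j
    · simp only [h1, h2, if_true, if_false] at hkl
      rw [hkl, h2]
      exact h X
    · simp only [h1, h2, if_false] at hkl
      rw [hkl, Equiv.swap_self]
      congr 1
      exact Finset.image_id

end Pool.Agent.H56.FT
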