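import Pool.Agent.H56.FT.Main

/-!
# Extreme points of a base polyhedron follow chains; minors
-/

set_option autoImplicit false
set_option maxHeartbeats 4000000

open Finset

namespace Pool.Agent.H56.FT

open Pool.Agent.H54.Frank Pool.Agent.H12.Fr

section ext

variable {V : Type*} [Fintype V] [DecidableEq V]

omit [DecidableEq V] in
lemma exists_slack (f : Finset V → ℝ) {x : V → ℝ} (hx : x ∈ base f) :
    ∃ ε : ℝ, 0 < ε ∧ ∀ X, ¬ Tight f x X → ε ≤ f X - ∑ i ∈ X, x i := by
  classical
  set s : Finset (Finset V) := Finset.univ.filter fun X => ¬ Tight f x X with hs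
  rcases s.eq_empty_or_nonempty with h | h
  · refine ⟨1, one_pos, fun X hX => ?_⟩
    have : X ∈ s := by rw [hs, Finset.mem_filter]; exact ⟨Finset.mem_univ _, hX⟩
    rw [h] at this
    exact absurd this (Finset.notMem_empty _)
  · obtain ⟨X, hX, hm⟩ := Finset.exists_min_image s (fun X => f X - ∑ i ∈ X, x i) h
    refine ⟨f X - ∑ i ∈ X, x i, ?_, fun Y hY => hm Y ?_⟩
    · rw [hs, Finset.mem_filter] at hX
      have := lt_of_le_of_ne (hx.1 X) hX.2
      linarith
    · rw [hs, Finset.mem_filter]; exact ⟨Finset.mem_univ _, hY⟩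

/-- the exchange by `t` -/
def mvt (x : V → ℝ) (a b : V) (t : ℝ) : V → ℝ :=
  fun i => x i + t * ((if i = a then 1 else 0) - (if i = b then 1 else 0))

omit [Fintype V] in
lemma sum_mvt (x : V → ℝ) (a b : V) (t : ℝ) (X : Finset V) :
    ∑ i ∈ X, mvt x a b t i =
      ∑ i ∈ X, x i + t * ((if a ∈ X then 1 else 0) - (if b ∈ X then 1 else 0)) := by
  simp only [mvt, Finset.sum_add_distrib, ← Finset.mul_sum, Finset.sum_sub_distrib,
    Finset.sum_ite_eq']

lemma mvt_mem {f : Finset V → ℝ} {x : V → ℝ} (hx : x ∈ base f) {a b : V} {t ε : ℝ}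
    (hε : ∀ X, ¬ Tight f x X → ε ≤ f X - ∑ i ∈ X, x i) (ht : |t| ≤ ε)
    (hab : ∀ Y, Tight f x Y → (a ∈ Y ↔ b ∈ Y)) : mvt x a b t ∈ base f := by
  refine ⟨fun X => ?_, ?_⟩
  · rw [sum_mvt]
    by_cases hX : Tight f x X
    · have h1 := hab X hX
      have h2 := hx.1 X
      by_cases ha : a ∈ X
      · simp only [ha, h1.1 ha, if_true, sub_self, mul_zero, add_zero]; exact h2
      · have hb : b ∉ X := fun h3 => ha (h1.2 h3)
        simp only [ha, hb, if_false, sub_self, mul_zero, add_zero]; exact h2
    · have h1 := hε X hX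
      have h2 := abs_le.1 ht
      have h3 : t * ((if a ∈ X then 1 else 0) - (if b ∈ X then 1 else 0)) ≤ ε := by
        split_ifs <;> simp <;> linarith [abs_nonneg t]
      linarith
  · rw [sum_mvt]
    simp only [Finset.mem_univ, if_true, sub_self, mul_zero, add_zero]
    exact hx.2

/-- extreme points are greedy -/
lemma chain_of_extreme {f : Finset V → ℝ} (hf : Submodular f) (h0 : f ∅ = 0) {x : V → ℝ}
    (hx : x ∈ Set.extremePoints ℝ (base f)) : MChain f x ∅ Finset.univ := by
  obtain ⟨ε, hε0, hε⟩ := exists_slack f hx.1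
  have hb := hx.1
  have one : ∀ S T, Block f x S T → ∀ a ∈ T \ S, ∀ b ∈ T \ S, a = b := by
    intro S T hbl a ha b hb'
    by_contra hne
    have key : ∀ a ∈ T \ S, ∀ b ∈ T \ S, ∀ Y, Tight f x Y → a ∈ Y → b ∈ Y := by
      intro a ha b hb' Y hY haY
      by_contra hbY
      have h1 := (hY.inter_union hf hb hbl.hi).1
      have h2 := (h1.inter_union hf hb hbl.lo).2
      refine hbl.mid _ ?_ ?_ h2
      · refine ⟨Finset.subset_union_right, fun h3 => ?_⟩
        have h4 : a ∈ Y ∩ T ∪ S :=
          Finset.mem_union_left _ (Finset.mem_inter.2 ⟨haY, (Finset.mem_sdiff.1 ha).1⟩)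
        exact (Finset.mem_sdiff.1 ha).2 (h3 h4)
      · refine ⟨Finset.union_subset Finset.inter_subset_right hbl.ss.1, fun h3 => ?_⟩
        rcases Finset.mem_union.1 (h3 (Finset.mem_sdiff.1 hb').1) with h4 | h4
        · exact hbY (Finset.mem_inter.1 h4).1
        · exact (Finset.mem_sdiff.1 hb').2 h4
    have hiff : ∀ Y, Tight f x Y → (a ∈ Y ↔ b ∈ Y) := fun Y hY =>
      ⟨key a ha b hb' Y hY, key b hb' a ha Y hY⟩
    have m1 : mvt x a b ε ∈ base f := mvt_mem hb hε (by rw [abs_of_pos hε0]) hiff
    have m2 : mvt x a b (-ε) ∈ base f := mvt_mem hb hε (by rw [abs_neg, abs_of_pos hε0]) hiff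
    have h3 : x ∈ openSegment ℝ (mvt x a b ε) (mvt x a b (-ε)) := by
      refine ⟨1 / 2, 1 / 2, by norm_num, by norm_num, by norm_num, ?_⟩
      funext i
      simp only [mvt, Pi.add_apply, Pi.smul_apply, smul_eq_mul]
      ring
    have h4 := hx.2 m1 m2 h3
    have h5 := congrFun h4 a
    simp only [mvt, if_true, if_neg hne] at h5
    linarith
  have key : ∀ n : ℕ, ∀ S T : Finset V, S ⊆ T → #(T \ S) = n → Tight f x S → Tight f x T →
      MChain f x S T := by
    intro n
    induction n using Nat.strong_induction_on with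
    | _ n ih =>
      intro S T hST hn hS hT
      rcases eq_or_ne S T with rfl | hne
      · exact MChain.refl _
      have hss : S ⊂ T := lt_of_le_of_ne hST hne
      by_cases hmid : ∀ X, S ⊂ X → X ⊂ T → ¬ Tight f x X
      · have hbl : Block f x S T := ⟨hss, hS, hT, hmid⟩
        obtain ⟨a, ha, ha'⟩ := Finset.exists_of_ssubset hss
        have haTS : a ∈ T \ S := Finset.mem_sdiff.2 ⟨ha, ha'⟩
        have h1 : T \ S = {a} :=
          Finset.eq_singleton_iff_unique_mem.2 ⟨haTS, fun b hb => one S T hbl b hb a haTS⟩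
        have h3 : T = insert a S := by
          rw [← Finset.union_sdiff_of_subset hST, h1]
          ext i; simp only [Finset.mem_union, Finset.mem_singleton, Finset.mem_insert]; tauto
        rw [h3]
        refine MChain.step (MChain.refl _) ha' ?_
        rw [← h3]
        unfold Tight at hS hT
        rw [← hS, ← hT, h3, Finset.sum_insert ha']
        ring
      · push Not at hmid
        obtain ⟨X, hX1, hX2, hX⟩ := hmid
        have c1 : #(X \ S) < n := by
          rw [← hn]
          refine Finset.card_lt_card ⟨Finset.sdiff_subset_sdiff hX2.1 (Finset.Subset.refl _),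
            fun hcon => ?_⟩
          obtain ⟨a, ha, ha'⟩ := Finset.exists_of_ssubset hX2
          have : a ∈ T \ S := Finset.mem_sdiff.2 ⟨ha, fun h1 => ha' (hX1.1 h1)⟩
          exact ha' (Finset.mem_sdiff.1 (hcon this)).1
        have c2 : #(T \ X) < n := by
          rw [← hn]
          refine Finset.card_lt_card ⟨Finset.sdiff_subset_sdiff (Finset.Subset.refl _) hX1.1,
            fun hcon => ?_⟩
          obtain ⟨a, ha, ha'⟩ := Finset.exists_of_ssubset hX1
          have : a ∈ T \ S := Finset.mem_sdiff.2 ⟨hX2.1 ha, ha'⟩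
          exact (Finset.mem_sdiff.1 (hcon this)).2 ha
        exact (ih _ c1 S X hX1.1 rfl hS hX).trans (ih _ c2 X T hX2.1 rfl hX hT)
  exact key _ ∅ Finset.univ (Finset.subset_univ _) rfl (tight_empty h0 x) (tight_univ hb)

end ext

section minor

variable {V : Type} [Fintype V] [DecidableEq V]

/-- the minor of `f` on the ground set `T \ S` -/
def minor (f : Finset V → ℝ) (S T : Finset V) : Finset {i // i ∈ T \ S} → ℝ :=
  fun Y => f (S ∪ Y.map (Function.Embedding.subtype _)) - f S

/-- extension of a vector by zero -/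
def extv (S T : Finset V) (y : {i // i ∈ T \ S} → ℝ) : V → ℝ :=
  fun i => if h : i ∈ T \ S then y ⟨i, h⟩ else 0

omit [Fintype V] in
lemma extv_neg (S T : Finset V) (y : {i // i ∈ T \ S} → ℝ) :
    extv S T (-y) = -extv S T y := by
  funext i
  by_cases h : i ∈ T \ S <;> simp [extv, h]

omit [Fintype V] in
lemma chain_minor {f : Finset V → ℝ} {S T : Finset V} {y : {i // i ∈ T \ S} → ℝ}
    {A U : Finset {i // i ∈ T \ S}} (h : MChain (minor f S T) y A U) :
    MChain f (extv S T y) (S ∪ A.map (Function.Embedding.subtype _))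
      (S ∪ U.map (Function.Embedding.subtype _)) := by
  induction h with
  | refl => exact MChain.refl _
  | @step X i h0 hi hx ih =>
    rw [Finset.map_insert, Finset.union_insert]
    refine MChain.step ih ?_ ?_
    · intro h1
      rcases Finset.mem_union.1 h1 with h2 | h2
      · exact (Finset.mem_sdiff.1 i.2).2 h2
      · rw [Finset.mem_map] at h2
        obtain ⟨k, hk, hk'⟩ := h2
        exact hi ((Function.Embedding.subtype _).injective hk' ▸ hk)
    · unfold minor at hx
      rw [Finset.map_insert, Finset.union_insert] at hx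
      have e : extv S T y ((Function.Embedding.subtype _) i) = y i := by
        have h1 : (Function.Embedding.subtype (fun i => i ∈ T \ S)) i ∈ T \ S := i.2
        unfold extv
        rw [dif_pos h1]
        rfl
      rw [e, ← hx]
      ring

omit [Fintype V] in
lemma minor_eq_loc {f : Finset V → ℝ} {S T : Finset V} (Y : Finset {i // i ∈ T \ S}) :
    minor f S T Y = loc f S T (Y.map (Function.Embedding.subtype _)) := by
  unfold minor loc
  congr 2
  congr 1
  symm
  rw [Finset.inter_eq_left]
  intro i hi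
  rw [Finset.mem_map] at hi
  obtain ⟨k, -, rfl⟩ := hi
  exact (Finset.mem_sdiff.1 k.2).1

omit [Fintype V] in
lemma univ_map_minor (S T : Finset V) :
    (Finset.univ : Finset {i // i ∈ T \ S}).map (Function.Embedding.subtype _) = T \ S := by
  ext i
  simp

lemma minor_data {f : Finset V → ℝ} {S T : Finset V} (hST : S ⊆ T) (h : Data (loc f S T)) :
    Data (minor f S T) where
  sub X Y := by
    rw [minor_eq_loc, minor_eq_loc, minor_eq_loc, minor_eq_loc, Finset.map_union,
      Finset.map_inter]
    exact h.sub _ _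
  empty := by rw [minor_eq_loc, Finset.map_empty]; exact h.empty
  univ := by
    rw [minor_eq_loc, univ_map_minor]
    have h1 := h.univ
    unfold loc at h1 ⊢
    rw [Finset.univ_inter, Finset.union_eq_right.2 hST] at h1
    rw [Finset.inter_eq_left.2 Finset.sdiff_subset, Finset.union_sdiff_of_subset hST]
    exact h1
  nonneg X := by rw [minor_eq_loc]; exact h.nonneg _
  marg X i hi := by
    rw [minor_eq_loc, minor_eq_loc, Finset.map_insert]
    refine h.marg _ _ fun h1 => ?_
    rw [Finset.mem_map] at h1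
    obtain ⟨k, hk, hk'⟩ := h1
    exact hi ((Function.Embedding.subtype _).injective hk' ▸ hk)

/-- opposite vertices exist -/
def Opposite {W : Type} [Fintype W] (g : Finset W → ℝ) : Prop :=
  ∃ v ∈ Set.extremePoints ℝ (base g), -v ∈ Set.extremePoints ℝ (base g)

lemma opp_of_minor {f : Finset V → ℝ} {S T : Finset V} (hST : S ⊆ T) (h : Data (loc f S T))
    (ho : Opposite (minor f S T)) : Opp f S T := by
  have hd := minor_data hST h
  obtain ⟨v, v1, v2⟩ := ho
  have c1 := chain_minor (chain_of_extreme hd.sub hd.empty v1)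
  have c2 := chain_minor (chain_of_extreme hd.sub hd.empty v2)
  rw [Finset.map_empty, Finset.union_empty, univ_map_minor,
    Finset.union_sdiff_of_subset hST] at c1 c2
  rw [extv_neg] at c2
  exact ⟨_, c1, c2⟩

/-- Frank's statement for the ground set `W` -/
def FrankOn (W : Type) [Fintype W] [DecidableEq W] : Prop :=
  ∀ g : Finset W → ℝ, Submodular g → g ∅ = 0 →
    (∀ v ∈ Set.extremePoints ℝ (base g), ∀ i, v i = 0 ∨ v i = 1 ∨ v i = -1) →
    (0 : W → ℝ) ∈ base g → Opposite g

omit [Fintype V] [DecidableEq V] in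
lemma chain_coord {W : Type} [DecidableEq W] {g : Finset W → ℝ}
    (hm : ∀ X i, i ∉ X → g (insert i X) - g X = 0 ∨ g (insert i X) - g X = 1 ∨
      g (insert i X) - g X = -1) {y : W → ℝ} {S T : Finset W} (h : MChain g y S T) :
    ∀ i ∈ T, i ∉ S → y i = 0 ∨ y i = 1 ∨ y i = -1 := by
  induction h with
  | refl => exact fun i hi hi' => absurd hi hi'
  | @step X k h0 hk hx ih =>
    intro i hi hi'
    rcases Finset.mem_insert.1 hi with rfl | h1
    · rw [← hx]; exact hm _ _ hk
    · exact ih i h1 hi'

lemma frankOn_apply {W : Type} [Fintype W] [DecidableEq W] (hF : FrankOn W)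
    {g : Finset W → ℝ} (h : Data g) : Opposite g := by
  refine hF g h.sub h.empty (fun v hv i => ?_) ⟨fun X => ?_, ?_⟩
  · exact chain_coord h.marg (chain_of_extreme h.sub h.empty hv) i (Finset.mem_univ _)
      (Finset.notMem_empty _)
  · simpa using h.nonneg X
  · simpa using h.univ.symm

end minor

end Pool.Agent.H56.FT
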