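import Pool.Agent.H56.FT.Crit

/-!
# The criteria for components (from the earlier hand-in ConnectedAntipode of helper54 and helper12)
-/

set_option autoImplicit false
set_option maxHeartbeats 4000000

open Finset

namespace Pool.Agent.H56.FT

open Pool.Agent.H54.Frank Pool.Agent.H12.Fr

variable {V : Type} [Fintype V] [DecidableEq V]

/-- no subset sum takes both a value `≥ 3` and a value `≤ -3` -/
theorem opposite_two {f : Finset V → ℝ} (h : Data f)
    (H : ∀ X : Finset V, f X ≤ 2 ∨ f Xᶜ ≤ 2) :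
    ∃ v ∈ Set.extremePoints ℝ (base f), -v ∈ Set.extremePoints ℝ (base f) := by
  refine opposite_of_opp h (opp_of_irred h fun S T hir => opp_of_two h hir fun X x1 x2 => ?_)
  obtain ⟨hss, hS, hT, -⟩ := hir
  by_contra hcon
  push Not at hcon
  have k1 : f X ≤ f (X \ S) := by
    have h3 := h.sub (X \ S) S
    have e1 : X \ S ∪ S = X := Finset.sdiff_union_of_subset x1
    have e2 : X \ S ∩ S = ∅ := Finset.sdiff_inter_self _ _
    rw [e1, e2, h.empty, hS] at h3
    linarith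
  have k2 : f (S ∪ (T \ X)) ≤ f (X \ S)ᶜ := by
    have h3 := h.sub (X \ S)ᶜ T
    have e1 : (X \ S)ᶜ ∪ T = Finset.univ := by
      ext i
      simp only [Finset.mem_union, Finset.mem_compl, Finset.mem_sdiff, Finset.mem_univ, iff_true]
      by_cases hi : i ∈ T
      · exact Or.inr hi
      · exact Or.inl fun h4 => hi (x2 h4.1)
    have e2 : (X \ S)ᶜ ∩ T = S ∪ (T \ X) := by
      ext i
      simp only [Finset.mem_inter, Finset.mem_compl, Finset.mem_sdiff, Finset.mem_union]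
      constructor
      · rintro ⟨h4, h5⟩
        by_cases hi : i ∈ S
        · exact Or.inl hi
        · exact Or.inr ⟨h5, fun h6 => h4 ⟨h6, hi⟩⟩
      · rintro (h4 | ⟨h4, h5⟩)
        · exact ⟨fun h6 => h6.2 h4, hss.1 h4⟩
        · exact ⟨fun h6 => h5 h6.1, h4⟩
    rw [e1, e2, h.univ, hT] at h3
    linarith
  rcases H (X \ S) with h3 | h3
  · linarith [hcon.1]
  · linarith [hcon.2]

/-- the ball case -/
theorem opposite_ball {f : Finset V → ℝ} (h : Data f) (k : ℕ)
    (h1 : ∀ X : Finset V, ((min k (min #X #Xᶜ) : ℕ) : ℝ) ≤ f X)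
    (h2 : ∀ X : Finset V, f X ≤ k ∨ f Xᶜ ≤ k) :
    ∃ v ∈ Set.extremePoints ℝ (base f), -v ∈ Set.extremePoints ℝ (base f) := by
  refine opposite_of_opp h (opp_of_ball h (k := k) (Finset.empty_subset _) h.empty h.univ
    (fun X _ _ => ?_) fun X _ _ => ?_)
  · have := h1 X
    rwa [Finset.sdiff_empty, ← Finset.compl_eq_univ_sdiff]
  · have := h2 X
    rwa [Finset.empty_union, ← Finset.compl_eq_univ_sdiff]

/-- the conditions for one component -/
def Good (g : Finset V → ℝ) (S T : Finset V) : Prop :=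
  #(T \ S) ≤ 6 ∨
  (∀ X, S ⊆ X → X ⊆ T → g X ≤ 2 ∨ g (S ∪ (T \ X)) ≤ 2) ∨
  ∃ k : ℕ, ((∀ X, S ⊆ X → X ⊆ T → ((min k (min #(X \ S) #(T \ X)) : ℕ) : ℝ) ≤ g X) ∧
      ∀ X, S ⊆ X → X ⊆ T → g X ≤ k ∨ g (S ∪ (T \ X)) ≤ k) ∨
    ∃ A N, Pt g S T k A N ∧ Relation.ReflTransGen (Move g S T k) (A, N) (N, A)

theorem Good.opp {g : Finset V → ℝ} (h : Data g) {S T : Finset V} (hir : Irred g S T)
    (hg : Good g S T) : Opp g S T := by
  rcases hg with h1 | h1 | ⟨k, ⟨h1, h2⟩ | ⟨A, N, h2, h3⟩⟩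
  · exact opp_six h hir h1
  · exact opp_of_two h hir h1
  · exact opp_of_ball h hir.1.1 hir.2.1 hir.2.2.1 h1 h2
  · exact opp_of_path h hir.1.1 hir.2.1 hir.2.2.1 h2 h3

/-- the general criterion -/
theorem opp_of_good {ι : Type} [DecidableEq ι] {f : Finset V → ℝ} (h : Data f) {c : V → ι}
    (hc : Twins f c)
    (H : ∀ (x : V → ℝ) (S T : Finset V), Bal f c x → Block f x S T → (∀ i ∈ T \ S, x i = 0) →
      Set.InjOn c (T \ S : Finset V) →
      (∀ i ∈ T \ S, Odd #(Finset.univ.filter fun j => c j = c i)) →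
      Good (loc f S T) S T ∨ Opposite (minor f S T)) :
    Opp f ∅ Finset.univ := by
  obtain ⟨x, hx, hmax⟩ := exists_max h c
  refine opp_of_blocks h hc hx hmax fun S T hb h0 hcard => ?_
  have hd := loc_data h hx.2.1 hb.ss.1 hb.lo hb.hi h0
  have hu : ∀ i ∈ T \ S, Uniq c x i := by
    intro i hi
    obtain ⟨b, hb1, hb2⟩ := Finset.exists_mem_ne hcard i
    exact block_unique h hc hx hmax hb hi hb1 hb2.symm
  have hinj : Set.InjOn c (T \ S : Finset V) := by
    intro a ha b hb' hab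
    by_contra hne
    exact (hu a ha).2 b hab.symm (Ne.symm hne) (hu b hb').1
  have hodd : ∀ i ∈ T \ S, Odd #(Finset.univ.filter fun j => c j = c i) :=
    fun i hi => block_odd hx (hu i hi).1 (hu i hi).2
  rcases H x S T hx hb h0 hinj hodd with h1 | h1
  · exact opp_loc (h1.opp hd (loc_irred hx.2.1 hb h0))
  · exact opp_of_minor hb.ss.1 hd h1

end Pool.Agent.H56.FT
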