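import Pool.Agent.H56.FT.Shift

/-!
# Opposite vertices from balanced points
-/

set_option autoImplicit false
set_option maxHeartbeats 4000000

open Finset

namespace Pool.Agent.H56.FT

open Pool.Agent.H54.Frank Pool.Agent.H12.Fr

variable {V ι : Type*} [Fintype V] [DecidableEq V] [DecidableEq ι]

/-- `a` is the only zero of its class -/
def Uniq (c : V → ι) (x : V → ℝ) (a : V) : Prop :=
  x a = 0 ∧ ∀ a', c a' = c a → a' ≠ a → x a' ≠ 0

/-- two chains from `S` to `T` which agree with `x` except at unique zeros, where they are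
opposite -/
def Pair (f : Finset V → ℝ) (c : V → ι) (x : V → ℝ) (S T : Finset V) : Prop :=
  ∃ v w : V → ℝ, MChain f v S T ∧ MChain f w S T ∧
    ∀ i ∈ T \ S, (v i = x i ∧ w i = x i) ∨ (Uniq c x i ∧ w i = -v i)

omit [Fintype V] [DecidableEq ι] in
lemma Pair.trans {f : Finset V → ℝ} {c : V → ι} {x : V → ℝ} {S T U : Finset V}
    (h : Pair f c x S T) (h' : Pair f c x T U) : Pair f c x S U := by
  obtain ⟨v, w, v1, w1, e1⟩ := h
  obtain ⟨v', w', v2, w2, e2⟩ := h'
  refine ⟨fun i => if i ∈ T then v i else v' i, fun i => if i ∈ T then w i else w' i, ?_, ?_,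
    fun i hi => ?_⟩
  · refine (v1.congr fun i hi _ => ?_).trans (v2.congr fun i _ hi => ?_)
    · simp [hi]
    · simp [hi]
  · refine (w1.congr fun i hi _ => ?_).trans (w2.congr fun i _ hi => ?_)
    · simp [hi]
    · simp [hi]
  · have h1 := Finset.mem_sdiff.1 hi
    by_cases hT : i ∈ T
    · simpa [hT] using e1 i (Finset.mem_sdiff.2 ⟨hT, h1.2⟩)
    · simpa [hT] using e2 i (Finset.mem_sdiff.2 ⟨h1.1, hT⟩)

lemma pair_of_tight {f : Finset V → ℝ} (h : Data f) {c : V → ι} (hc : Twins f c) {x : V → ℝ}
    (hx : Bal f c x) (hmax : ∀ y, Bal f c y → supp y ≤ supp x)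
    (H : ∀ S T, Block f x S T → (∀ i ∈ T \ S, x i = 0) → 1 < #(T \ S) → Opp f S T) :
    ∀ S T, S ⊆ T → Tight f x S → Tight f x T → Pair f c x S T := by
  have key : ∀ n : ℕ, ∀ S T : Finset V, S ⊆ T → #(T \ S) = n → Tight f x S → Tight f x T →
      Pair f c x S T := by
    intro n
    induction n using Nat.strong_induction_on with
    | _ n ih =>
      intro S T hST hn hS hT
      rcases eq_or_ne S T with rfl | hne
      · exact ⟨0, 0, MChain.refl _, MChain.refl _, by simp⟩
      have hss : S ⊂ T := lt_of_le_of_ne hST hne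
      by_cases hmid : ∀ X, S ⊂ X → X ⊂ T → ¬ Tight f x X
      · have hb : Block f x S T := ⟨hss, hS, hT, hmid⟩
        obtain ⟨a, ha, ha'⟩ := Finset.exists_of_ssubset hss
        have haTS : a ∈ T \ S := Finset.mem_sdiff.2 ⟨ha, ha'⟩
        by_cases hcard : 1 < #(T \ S)
        · have hu : ∀ i ∈ T \ S, Uniq c x i := by
            intro i hi
            obtain ⟨b, hb1, hb2⟩ := Finset.exists_mem_ne hcard i
            exact block_unique h hc hx hmax hb hi hb1 hb2.symm
          obtain ⟨y, y1, y2⟩ := H S T hb (fun i hi => (hu i hi).1) hcard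
          exact ⟨y, -y, y1, y2, fun i hi => Or.inr ⟨hu i hi, rfl⟩⟩
        · have h1 : T \ S = {a} := by
            have h2 : #(T \ S) = 1 := by
              have := Finset.card_pos.2 ⟨a, haTS⟩
              omega
            obtain ⟨b, hb⟩ := Finset.card_eq_one.1 h2
            rw [hb, Finset.mem_singleton] at haTS
            rw [hb, haTS]
          have h3 : T = insert a S := by
            rw [← Finset.union_sdiff_of_subset hST, h1]
            ext i; simp only [Finset.mem_union, Finset.mem_singleton, Finset.mem_insert]; tauto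
          have h4 : MChain f x S T := by
            rw [h3]
            refine MChain.step (MChain.refl _) ha' ?_
            rw [← h3]
            unfold Tight at hS hT
            rw [← hS, ← hT, h3, Finset.sum_insert ha']
            ring
          exact ⟨x, x, h4, h4, fun i _ => Or.inl ⟨rfl, rfl⟩⟩
      · push Not at hmid
        obtain ⟨X, hX1, hX2, hX⟩ := hmid
        have c1 : #(X \ S) < n := by
          rw [← hn]
          refine Finset.card_lt_card ⟨Finset.sdiff_subset_sdiff hX2.1 (Finset.Subset.refl _),
            fun hcon => ?_⟩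
          obtain ⟨a, ha, ha'⟩ := Finset.exists_of_ssubset hX2
          have : a ∈ T \ S := Finset.mem_sdiff.2 ⟨ha, fun h1 => ha' (hX1.1 h1)⟩
          exact ha' (Finset.mem_sdiff.1 (hcon this)).1
        have c2 : #(T \ X) < n := by
          rw [← hn]
          refine Finset.card_lt_card ⟨Finset.sdiff_subset_sdiff (Finset.Subset.refl _) hX1.1,
            fun hcon => ?_⟩
          obtain ⟨a, ha, ha'⟩ := Finset.exists_of_ssubset hX1
          have : a ∈ T \ S := Finset.mem_sdiff.2 ⟨hX2.1 ha, ha'⟩
          exact (Finset.mem_sdiff.1 (hcon this)).2 ha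
        exact (ih _ c1 S X hX1.1 rfl hS hX).trans (ih _ c2 X T hX2.1 rfl hX hT)
  exact fun S T hST hS hT => key _ S T hST rfl hS hT

omit [Fintype V] [DecidableEq V] in
/-- counts: on a set with values `0, 1, -1` and sum zero the values `r` and `-r` occur equally
often -/
lemma count_neg {x : V → ℝ} (ht : Tri x) {s : Finset V} (hs : ∑ i ∈ s, x i = 0) (r : ℝ) :
    #(s.filter fun i => -x i = r) = #(s.filter fun i => x i = r) := by
  classical
  have hpm : #(s.filter fun i => x i = -1) = #(s.filter fun i => x i = 1) := by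
    have e : ∑ i ∈ s, x i = ∑ i ∈ s, ((if x i = 1 then 1 else 0) - (if x i = -1 then 1 else 0)) := by
      refine Finset.sum_congr rfl fun i _ => ?_
      rcases ht i with h | h | h <;> rw [h] <;> norm_num
    rw [hs, Finset.sum_sub_distrib, Finset.sum_boole, Finset.sum_boole] at e
    have : ((#(s.filter fun i => x i = -1) : ℕ) : ℝ) = #(s.filter fun i => x i = 1) := by linarith
    exact_mod_cast this
  by_cases h1 : r = 1
  · subst h1
    rw [← hpm]
    congr 1
    ext i
    simp only [Finset.mem_filter]
    constructor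
    · rintro ⟨a, b⟩; exact ⟨a, by linarith⟩
    · rintro ⟨a, b⟩; exact ⟨a, by linarith⟩
  by_cases h2 : r = -1
  · subst h2
    rw [hpm]
    congr 1
    ext i
    simp only [Finset.mem_filter]
    constructor
    · rintro ⟨a, b⟩; exact ⟨a, by linarith⟩
    · rintro ⟨a, b⟩; exact ⟨a, by linarith⟩
  by_cases h3 : r = 0
  · subst h3
    congr 1
    ext i
    simp only [Finset.mem_filter]
    constructor
    · rintro ⟨a, b⟩; exact ⟨a, by linarith⟩
    · rintro ⟨a, b⟩; exact ⟨a, by linarith⟩
  · rw [Finset.filter_false_of_mem, Finset.filter_false_of_mem]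
    · intro i _ hi
      rcases ht i with h | h | h
      · exact h3 (by rw [← hi, h])
      · exact h1 (by rw [← hi, h])
      · exact h2 (by rw [← hi, h])
    · intro i _ hi
      rcases ht i with h | h | h
      · exact h3 (by rw [← hi, h]; ring)
      · exact h2 (by rw [← hi, h])
      · exact h1 (by rw [← hi, h]; ring)

/-- **The criterion.** -/
theorem opp_of_blocks {f : Finset V → ℝ} (h : Data f) {c : V → ι} (hc : Twins f c) {x : V → ℝ}
    (hx : Bal f c x) (hmax : ∀ y, Bal f c y → supp y ≤ supp x)
    (H : ∀ S T, Block f x S T → (∀ i ∈ T \ S, x i = 0) → 1 < #(T \ S) → Opp f S T) :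
    Opp f ∅ Finset.univ := by
  classical
  obtain ⟨v, w, v1, w1, e1⟩ := pair_of_tight h hc hx hmax H ∅ Finset.univ
    (Finset.subset_univ _) (tight_empty h.empty x) (tight_univ hx.2.1)
  refine ⟨v, v1, chain_of_counts hc w1 fun C r => ?_⟩
  have h1 : ∀ i, (v i = x i ∧ w i = x i) ∨ (Uniq c x i ∧ w i = -v i) := fun i =>
    e1 i (by simp)
  rw [Nat.card_eq_fintype_card, Nat.card_eq_fintype_card, Fintype.card_subtype,
    Fintype.card_subtype]
  set cl : Finset V := Finset.univ.filter fun i => c i = C with hcl
  set A : Finset V := cl.filter fun i => ¬ (v i = x i ∧ w i = x i) with hA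
  set B : Finset V := cl.filter fun i => v i = x i ∧ w i = x i with hB
  have hAx : ∀ i ∈ A, x i = 0 := by
    intro i hi
    rw [hA, Finset.mem_filter] at hi
    exact ((h1 i).resolve_left hi.2).1.1
  have hAw : ∀ i ∈ A, w i = -v i := by
    intro i hi
    rw [hA, Finset.mem_filter] at hi
    exact ((h1 i).resolve_left hi.2).2
  have hsum : ∑ i ∈ B, x i = 0 := by
    have h2 := hx.2.2 C
    rw [← Finset.sum_filter_add_sum_filter_not _ (fun i => v i = x i ∧ w i = x i)] at h2
    rw [Finset.sum_eq_zero hAx, add_zero] at h2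
    exact h2
  have split : ∀ y : V → ℝ, #(Finset.univ.filter fun i => c i = C ∧ y i = r) =
      #(B.filter fun i => y i = r) + #(A.filter fun i => y i = r) := by
    intro y
    have e0 : (Finset.univ.filter fun i => c i = C ∧ y i = r) = cl.filter fun i => y i = r := by
      rw [hcl, Finset.filter_filter]
    have e4 : (B.filter fun i => y i = r) =
        (cl.filter fun i => y i = r).filter fun i => v i = x i ∧ w i = x i := by
      ext i; simp only [hB, Finset.mem_filter]; tauto
    have e5 : (A.filter fun i => y i = r) =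
        (cl.filter fun i => y i = r).filter fun i => ¬ (v i = x i ∧ w i = x i) := by
      ext i; simp only [hA, Finset.mem_filter]; tauto
    rw [e0, e4, e5]
    exact (Finset.card_filter_add_card_filter_not (s := cl.filter fun i => y i = r)
      (p := fun i => v i = x i ∧ w i = x i)).symm
  rw [split, split]
  congr 1
  · have e2 : (B.filter fun i => (-v) i = r) = B.filter fun i => -x i = r := by
      refine Finset.filter_congr fun i hi => ?_
      rw [hB, Finset.mem_filter] at hi
      rw [Pi.neg_apply, hi.2.1]
    have e3 : (B.filter fun i => w i = r) = B.filter fun i => x i = r := by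
      refine Finset.filter_congr fun i hi => ?_
      rw [hB, Finset.mem_filter] at hi
      rw [hi.2.2]
    rw [e2, e3]
    exact count_neg hx.1 hsum r
  · congr 1
    refine Finset.filter_congr fun i hi => ?_
    rw [hAw i hi, Pi.neg_apply]

/-- at most six odd classes of twins -/
theorem opp_six_odd {f : Finset V → ℝ} (h : Data f) {c : V → ι} (hc : Twins f c)
    (h6 : #(oddC c) ≤ 6) : Opp f ∅ Finset.univ := by
  obtain ⟨x, hx, hmax⟩ := exists_max h c
  refine opp_of_blocks h hc hx hmax fun S T hb h0 hcard => ?_
  have h1 := block_card h hc hx hmax hb hcard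
  exact opp_loc (opp_six (loc_data h hx.2.1 hb.ss.1 hb.lo hb.hi h0) (loc_irred hx.2.1 hb h0)
    (h1.trans h6))

end Pool.Agent.H56.FT
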