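import Pool.Agent.H56.FT.Twin

/-!
# Local functions of blocks, and chains moved by exchanges of twins
-/

set_option autoImplicit false
set_option maxHeartbeats 4000000

open Finset

namespace Pool.Agent.H56.FT

open Pool.Agent.H54.Frank Pool.Agent.H12.Fr

variable {V ι : Type*} [Fintype V] [DecidableEq V] [DecidableEq ι]

/-- the local function of the interval from `S` to `T` -/
def loc (f : Finset V → ℝ) (S T : Finset V) : Finset V → ℝ := fun X => f (S ∪ (X ∩ T)) - f S

omit [Fintype V] in
lemma loc_mid {f : Finset V → ℝ} {S T X : Finset V} (h1 : S ⊆ X) (h2 : X ⊆ T) :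
    loc f S T X = f X - f S := by
  unfold loc
  rw [Finset.inter_eq_left.2 h2, Finset.union_eq_right.2 h1]

omit [Fintype V] in
lemma sum_zero_on {x : V → ℝ} {S T X : Finset V} (h0 : ∀ i ∈ T \ S, x i = 0) (h1 : S ⊆ X)
    (h2 : X ⊆ T) : ∑ i ∈ X, x i = ∑ i ∈ S, x i := by
  symm
  refine Finset.sum_subset h1 fun i hi hi' => h0 i (Finset.mem_sdiff.2 ⟨h2 hi, hi'⟩)

lemma loc_data {f : Finset V → ℝ} (h : Data f) {x : V → ℝ} (hx : x ∈ base f) {S T : Finset V}
    (hST : S ⊆ T) (hS : Tight f x S) (hT : Tight f x T) (h0 : ∀ i ∈ T \ S, x i = 0) :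
    Data (loc f S T) where
  sub X Y := by
    have h1 := h.sub (S ∪ (X ∩ T)) (S ∪ (Y ∩ T))
    have e1 : S ∪ (X ∩ T) ∪ (S ∪ (Y ∩ T)) = S ∪ ((X ∪ Y) ∩ T) := by
      ext i; simp only [Finset.mem_union, Finset.mem_inter]; tauto
    have e2 : (S ∪ (X ∩ T)) ∩ (S ∪ (Y ∩ T)) = S ∪ ((X ∩ Y) ∩ T) := by
      ext i; simp only [Finset.mem_union, Finset.mem_inter]; tauto
    rw [e1, e2] at h1
    unfold loc
    linarith
  empty := by simp [loc]
  univ := by
    have h1 := sum_zero_on h0 hST (Finset.Subset.refl T)
    unfold Tight at hS hT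
    unfold loc
    rw [Finset.univ_inter, Finset.union_eq_right.2 hST]
    linarith
  nonneg X := by
    have h1 : ∑ i ∈ S ∪ (X ∩ T), x i = ∑ i ∈ S, x i :=
      sum_zero_on h0 Finset.subset_union_left
        (Finset.union_subset hST Finset.inter_subset_right)
    have h2 := hx.1 (S ∪ (X ∩ T))
    unfold Tight at hS
    unfold loc
    linarith
  marg X i hi := by
    unfold loc
    by_cases h1 : i ∈ T \ S
    · have h2 := Finset.mem_sdiff.1 h1
      have e1 : S ∪ (insert i X ∩ T) = insert i (S ∪ (X ∩ T)) := by
        rw [Finset.insert_inter_of_mem h2.1, Finset.union_insert]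
      have h3 : i ∉ S ∪ (X ∩ T) := by
        simp only [Finset.mem_union, Finset.mem_inter, not_or, not_and]
        exact ⟨h2.2, fun h4 => absurd h4 hi⟩
      have h4 := h.marg _ _ h3
      rw [e1]
      rcases h4 with h4 | h4 | h4
      · left; linarith
      · right; left; linarith
      · right; right; linarith
    · left
      have e1 : S ∪ (insert i X ∩ T) = S ∪ (X ∩ T) := by
        ext j
        simp only [Finset.mem_union, Finset.mem_inter, Finset.mem_insert]
        constructor
        · rintro (h2 | ⟨h2 | h2, h3⟩)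
          · exact Or.inl h2
          · by_cases h4 : j ∈ S
            · exact Or.inl h4
            · exact absurd (Finset.mem_sdiff.2 ⟨h2 ▸ h3, h2 ▸ h4⟩) h1
          · exact Or.inr ⟨h2, h3⟩
        · rintro (h2 | ⟨h2, h3⟩)
          · exact Or.inl h2
          · exact Or.inr ⟨Or.inr h2, h3⟩
      rw [e1]
      ring

lemma loc_irred {f : Finset V → ℝ} {x : V → ℝ} (hx : x ∈ base f) {S T : Finset V}
    (hb : Block f x S T) (h0 : ∀ i ∈ T \ S, x i = 0) : Irred (loc f S T) S T := by
  refine ⟨hb.ss, ?_, ?_, fun X h1 h2 => ?_⟩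
  · rw [loc_mid (Finset.Subset.refl _) hb.ss.1]; ring
  · rw [loc_mid hb.ss.1 (Finset.Subset.refl _)]
    have h1 := sum_zero_on h0 hb.ss.1 (Finset.Subset.refl T)
    have h2 := hb.lo
    have h3 := hb.hi
    unfold Tight at h2 h3
    linarith
  · rw [loc_mid h1.1 h2.1]
    have h3 := sum_zero_on h0 h1.1 h2.1
    have h4 := hb.mid X h1 h2
    have h5 := hx.1 X
    have h6 := hb.lo
    unfold Tight at h4 h6
    have h7 : ∑ i ∈ X, x i < f X := lt_of_le_of_ne h5 h4
    linarith

omit [Fintype V] in
lemma chain_loc {f : Finset V → ℝ} {y : V → ℝ} {S T : Finset V} :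
    ∀ {U : Finset V}, MChain (loc f S T) y S U → U ⊆ T → MChain f y S U := by
  intro U hU
  induction hU with
  | refl => exact fun _ => MChain.refl _
  | @step X i h0 hi hx ih =>
    intro hT
    have h1 : X ⊆ T := (Finset.subset_insert _ _).trans hT
    refine MChain.step (ih h1) hi ?_
    rw [loc_mid (h0.subset.trans (Finset.subset_insert _ _)) hT, loc_mid h0.subset h1] at hx
    linarith

omit [Fintype V] in
lemma opp_loc {f : Finset V → ℝ} {S T : Finset V} (h : Opp (loc f S T) S T) : Opp f S T := by
  obtain ⟨y, h1, h2⟩ := h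
  exact ⟨y, chain_loc h1 (Finset.Subset.refl _), chain_loc h2 (Finset.Subset.refl _)⟩

omit [Fintype V] [DecidableEq ι] in
/-- chains move with exchanges of twins -/
lemma MChain_swap {f : Finset V → ℝ} {c : V → ι} (hc : Twins f c) {a b : V} (hab : c a = c b)
    {y : V → ℝ} {S T : Finset V} (h : MChain f y S T) :
    MChain f (fun k => y (Equiv.swap a b k)) (S.image (Equiv.swap a b))
      (T.image (Equiv.swap a b)) := by
  induction h with
  | refl => exact MChain.refl _
  | @step X i h0 hi hx ih =>
    rw [Finset.image_insert]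
    refine MChain.step ih ?_ ?_
    · rw [Finset.mem_image]
      rintro ⟨k, hk, hk'⟩
      exact hi ((Equiv.swap a b).injective hk' ▸ hk)
    · rw [← Finset.image_insert, hc a b hab, hc a b hab, hx, Equiv.swap_apply_self]

/-- a vector with the same numbers of values in each class follows a chain, too -/
lemma chain_of_counts {f : Finset V → ℝ} {c : V → ι} (hc : Twins f c) {u w : V → ℝ}
    (hw : MChain f w ∅ Finset.univ)
    (hcnt : ∀ (C : ι) (r : ℝ), Nat.card {i // c i = C ∧ u i = r} =
      Nat.card {i // c i = C ∧ w i = r}) : MChain f u ∅ Finset.univ := by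
  classical
  have key : ∀ n : ℕ, ∀ w : V → ℝ, MChain f w ∅ Finset.univ →
      (∀ (C : ι) (r : ℝ), #(Finset.univ.filter fun i => c i = C ∧ u i = r) =
        #(Finset.univ.filter fun i => c i = C ∧ w i = r)) →
      #(Finset.univ.filter fun i => u i ≠ w i) = n → MChain f u ∅ Finset.univ := by
    intro n
    induction n using Nat.strong_induction_on with
    | _ n ih =>
      intro w hw hcnt hn
      by_cases hall : ∀ i, u i = w i
      · exact hw.congr fun i _ _ => (hall i).symm
      push Not at hall
      obtain ⟨i, hi⟩ := hall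
      obtain ⟨j, hj1, hj2⟩ : ∃ j, (c j = c i ∧ w j = u i) ∧ u j ≠ u i := by
        by_contra hcon
        push Not at hcon
        have h1 : (Finset.univ.filter fun j => c j = c i ∧ w j = u i) ⊂
            Finset.univ.filter fun j => c j = c i ∧ u j = u i := by
          refine ⟨fun j hj => ?_, fun hcon' => ?_⟩
          · rw [Finset.mem_filter] at hj ⊢
            exact ⟨hj.1, hj.2.1, hcon j hj.2⟩
          · have h2 : i ∈ Finset.univ.filter fun j => c j = c i ∧ u j = u i := by simp
            have h3 := hcon' h2
            rw [Finset.mem_filter] at h3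
            exact hi h3.2.2.symm
        exact absurd (hcnt (c i) (u i)) (Finset.card_lt_card h1).ne'
      have hij : i ≠ j := fun h1 => hj2 (h1 ▸ rfl)
      have hcs := MChain_swap hc (a := i) (b := j) hj1.1.symm hw
      rw [Finset.image_empty, Finset.image_univ_of_surjective (Equiv.swap i j).surjective] at hcs
      refine ih _ ?_ _ hcs (fun C r => ?_) rfl
      · rw [← hn]
        refine Finset.card_lt_card ⟨fun k hk => ?_, fun hcon => ?_⟩
        · rw [Finset.mem_filter] at hk ⊢
          refine ⟨Finset.mem_univ _, ?_⟩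
          by_cases k1 : k = i
          · rw [k1]; exact hi
          · by_cases k2 : k = j
            · rw [k2, hj1.2]; exact hj2
            · rw [Equiv.swap_apply_of_ne_of_ne k1 k2] at hk
              exact hk.2
        · have h1 : i ∈ Finset.univ.filter fun i => u i ≠ w i := by simp [hi]
          have h2 := hcon h1
          rw [Finset.mem_filter, Equiv.swap_apply_left] at h2
          exact h2.2 hj1.2.symm
      · rw [hcnt C r]
        refine Finset.card_bij (fun k _ => Equiv.swap i j k) (fun k hk => ?_)
          (fun k _ l _ hkl => (Equiv.swap i j).injective hkl) fun k hk => ?_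
        · rw [Finset.mem_filter] at hk ⊢
          refine ⟨Finset.mem_univ _, ?_, ?_⟩
          · rw [← hk.2.1]
            by_cases k1 : k = i
            · rw [k1, Equiv.swap_apply_left, hj1.1]
            · by_cases k2 : k = j
              · rw [k2, Equiv.swap_apply_right, hj1.1]
              · rw [Equiv.swap_apply_of_ne_of_ne k1 k2]
          · rw [Equiv.swap_apply_self]; exact hk.2.2
        · rw [Finset.mem_filter] at hk
          refine ⟨Equiv.swap i j k, ?_, Equiv.swap_apply_self _ _ _⟩
          rw [Finset.mem_filter]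
          refine ⟨Finset.mem_univ _, ?_, hk.2.2⟩
          rw [← hk.2.1]
          by_cases k1 : k = i
          · rw [k1, Equiv.swap_apply_left, hj1.1]
          · by_cases k2 : k = j
            · rw [k2, Equiv.swap_apply_right, hj1.1]
            · rw [Equiv.swap_apply_of_ne_of_ne k1 k2]
  refine key _ w hw (fun C r => ?_) rfl
  have h1 := hcnt C r
  rw [Nat.card_eq_fintype_card, Nat.card_eq_fintype_card, Fintype.card_subtype,
    Fintype.card_subtype] at h1
  exact h1

end Pool.Agent.H56.FT
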