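import Pool.Agent.H12.Fr.Six

/-!
# Tight sets of an integral point of a base polyhedron, and twins
-/

set_option autoImplicit false
set_option maxHeartbeats 4000000

open Finset

namespace Pool.Agent.H56.FT

open Pool.Agent.H54.Frank Pool.Agent.H12.Fr

variable {V : Type*} [Fintype V] [DecidableEq V]

/-- `X` is tight for `x` -/
def Tight (f : Finset V → ℝ) (x : V → ℝ) (X : Finset V) : Prop := ∑ i ∈ X, x i = f X

/-- all coordinates are `0`, `1` or `-1` -/
def Tri (x : V → ℝ) : Prop := ∀ i, x i = 0 ∨ x i = 1 ∨ x i = -1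

omit [Fintype V] in
lemma sum_union_inter (x : V → ℝ) (X Y : Finset V) :
    ∑ i ∈ X ∪ Y, x i + ∑ i ∈ X ∩ Y, x i = ∑ i ∈ X, x i + ∑ i ∈ Y, x i :=
  Finset.sum_union_inter

lemma Tight.inter_union {f : Finset V → ℝ} (hf : Submodular f) {x : V → ℝ} (hx : x ∈ base f)
    {X Y : Finset V} (h1 : Tight f x X) (h2 : Tight f x Y) :
    Tight f x (X ∩ Y) ∧ Tight f x (X ∪ Y) := by
  have h3 := hf X Y
  have h4 := hx.1 (X ∩ Y)
  have h5 := hx.1 (X ∪ Y)
  have h6 := sum_union_inter x X Y
  unfold Tight at *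
  constructor <;> linarith

omit [Fintype V] [DecidableEq V] in
lemma tight_empty {f : Finset V → ℝ} (h0 : f ∅ = 0) (x : V → ℝ) : Tight f x ∅ := by
  simp [Tight, h0]

omit [DecidableEq V] in
lemma tight_univ {f : Finset V → ℝ} {x : V → ℝ} (hx : x ∈ base f) : Tight f x Finset.univ :=
  hx.2

/-- move one unit from `b` to `a` -/
def mv (x : V → ℝ) (a b : V) : V → ℝ :=
  fun i => x i + (if i = a then 1 else 0) - (if i = b then 1 else 0)

omit [Fintype V] in
lemma sum_mv (x : V → ℝ) (a b : V) (X : Finset V) :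
    ∑ i ∈ X, mv x a b i = ∑ i ∈ X, x i + (if a ∈ X then 1 else 0) - (if b ∈ X then 1 else 0) := by
  simp only [mv, Finset.sum_sub_distrib, Finset.sum_add_distrib, Finset.sum_ite_eq']

omit [Fintype V] in
lemma sum_int {x : V → ℝ} (hx : ∀ i, x i = 0 ∨ x i = 1 ∨ x i = -1) (X : Finset V) :
    ∃ n : ℤ, ∑ i ∈ X, x i = n := by
  induction X using Finset.induction_on with
  | empty => exact ⟨0, by simp⟩
  | insert a X ha ih =>
    obtain ⟨n, hn⟩ := ih
    rw [Finset.sum_insert ha, hn]
    rcases hx a with h | h | h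
    · exact ⟨n, by rw [h]; ring⟩
    · exact ⟨1 + n, by rw [h]; push_cast; ring⟩
    · exact ⟨-1 + n, by rw [h]; push_cast; ring⟩

lemma slack {f : Finset V → ℝ} (h : Data f) {x : V → ℝ} (ht : Tri x) (hx : x ∈ base f)
    {X : Finset V} (hn : ¬ Tight f x X) : ∑ i ∈ X, x i + 1 ≤ f X := by
  obtain ⟨m, hm⟩ := h.int X
  obtain ⟨n, hn'⟩ := sum_int ht X
  have h1 := hx.1 X
  have h2 : ∑ i ∈ X, x i < f X := lt_of_le_of_ne h1 hn
  rw [hm, hn'] at h2 ⊢
  have : n < m := by exact_mod_cast h2
  have : n + 1 ≤ m := this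
  exact_mod_cast this

/-- the unit exchange -/
lemma mv_mem {f : Finset V → ℝ} (h : Data f) {x : V → ℝ} (ht : Tri x) (hx : x ∈ base f)
    {a b : V} (hab : ∀ Y, Tight f x Y → a ∈ Y → b ∈ Y) : mv x a b ∈ base f := by
  refine ⟨fun X => ?_, ?_⟩
  · rw [sum_mv]
    by_cases ha : a ∈ X
    · by_cases hb : b ∈ X
      · simp only [ha, hb, if_true]
        have := hx.1 X
        linarith
      · have h1 : ¬ Tight f x X := fun h2 => hb (hab X h2 ha)
        have h2 := slack h ht hx h1
        simp only [ha, hb, if_true, if_false]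
        linarith
    · have := hx.1 X
      by_cases hb : b ∈ X
      · simp only [ha, hb, if_true, if_false]
        linarith
      · simp only [ha, hb, if_false]
        linarith
  · rw [sum_mv]
    simp only [Finset.mem_univ, if_true]
    have := hx.2
    linarith

lemma coord_le {f : Finset V → ℝ} (h : Data f) {x : V → ℝ} (hx : x ∈ base f) (i : V) :
    x i ≤ 1 := by
  have h1 := hx.1 {i}
  rw [Finset.sum_singleton] at h1
  have h2 := h.marg ∅ i (Finset.notMem_empty _)
  rw [h.empty] at h2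
  have e : insert i (∅ : Finset V) = {i} := rfl
  rw [e] at h2
  rcases h2 with h2 | h2 | h2 <;> linarith

lemma le_coord {f : Finset V → ℝ} (h : Data f) {x : V → ℝ} (hx : x ∈ base f) (i : V) :
    -1 ≤ x i := by
  have h1 := hx.1 (Finset.univ.erase i)
  have h3 := hx.2
  rw [← Finset.add_sum_erase _ _ (Finset.mem_univ i)] at h3
  have h2 := h.marg (Finset.univ.erase i) i (Finset.notMem_erase _ _)
  rw [Finset.insert_erase (Finset.mem_univ i)] at h2
  rcases h2 with h2 | h2 | h2 <;> linarith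

/-- `(S, T)` is a block: consecutive tight sets. -/
structure Block (f : Finset V → ℝ) (x : V → ℝ) (S T : Finset V) : Prop where
  ss : S ⊂ T
  lo : Tight f x S
  hi : Tight f x T
  mid : ∀ X, S ⊂ X → X ⊂ T → ¬ Tight f x X

lemma Block.sep {f : Finset V → ℝ} (h : Data f) {x : V → ℝ} (hx : x ∈ base f) {S T : Finset V}
    (hb : Block f x S T) {a b : V} (ha : a ∈ T \ S) (hb' : b ∈ T \ S) :
    ∀ Y, Tight f x Y → a ∈ Y → b ∈ Y := by
  intro Y hY haY
  by_contra hbY
  have h1 := (hY.inter_union h.sub hx hb.hi).1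
  have h2 := (h1.inter_union h.sub hx hb.lo).2
  refine hb.mid _ ?_ ?_ h2
  · refine ⟨Finset.subset_union_right, fun h3 => ?_⟩
    have h4 : a ∈ Y ∩ T ∪ S :=
      Finset.mem_union_left _ (Finset.mem_inter.2 ⟨haY, (Finset.mem_sdiff.1 ha).1⟩)
    exact (Finset.mem_sdiff.1 ha).2 (h3 h4)
  · refine ⟨Finset.union_subset Finset.inter_subset_right hb.ss.1, fun h3 => ?_⟩
    rcases Finset.mem_union.1 (h3 (Finset.mem_sdiff.1 hb').1) with h4 | h4
    · exact hbY (Finset.mem_inter.1 h4).1
    · exact (Finset.mem_sdiff.1 hb').2 h4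

lemma Block.zero {f : Finset V → ℝ} (h : Data f) {x : V → ℝ} (ht : Tri x) (hx : x ∈ base f)
    {S T : Finset V} (hb : Block f x S T) {a b : V} (ha : a ∈ T \ S) (hb' : b ∈ T \ S)
    (hab : a ≠ b) : x a = 0 := by
  have h1 := coord_le h (mv_mem h ht hx (hb.sep h hx ha hb')) a
  have h2 := le_coord h (mv_mem h ht hx (hb.sep h hx hb' ha)) a
  simp only [mv, if_true, if_neg hab] at h1 h2
  rcases ht a with h3 | h3 | h3
  · exact h3
  · rw [h3] at h1; norm_num at h1
  · rw [h3] at h2; norm_num at h2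

/-- exchanging two coordinates inside a class does not change `f` -/
def Twins {ι : Type*} (f : Finset V → ℝ) (c : V → ι) : Prop :=
  ∀ i j, c i = c j → ∀ X : Finset V, f (X.image (Equiv.swap i j)) = f X

omit [Fintype V] in
lemma swap_comp {x : V → ℝ} {a b : V} (hab : x a = x b) (k : V) :
    x (Equiv.swap a b k) = x k := by
  by_cases h1 : k = a
  · rw [h1, Equiv.swap_apply_left, hab]
  · by_cases h2 : k = b
    · rw [h2, Equiv.swap_apply_right, hab]
    · rw [Equiv.swap_apply_of_ne_of_ne h1 h2]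

omit [Fintype V] in
lemma Tight.swap {ι : Type*} {f : Finset V → ℝ} {c : V → ι} (hc : Twins f c) {x : V → ℝ}
    {a b : V} (hcab : c a = c b) (hab : x a = x b) {X : Finset V} (hX : Tight f x X) :
    Tight f x (X.image (Equiv.swap a b)) := by
  unfold Tight at *
  rw [hc a b hcab X, ← hX, Finset.sum_image fun i _ j _ hij => (Equiv.swap a b).injective hij]
  exact Finset.sum_congr rfl fun k _ => swap_comp hab k

/-- the points considered: integral, all class sums zero -/
def Bal {ι : Type*} [DecidableEq ι] (f : Finset V → ℝ) (c : V → ι) (x : V → ℝ) : Prop :=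
  Tri x ∧ x ∈ base f ∧ ∀ C : ι, ∑ i ∈ Finset.univ.filter (fun i => c i = C), x i = 0

open Classical in
/-- the number of nonzero coordinates -/
noncomputable def supp (x : V → ℝ) : ℕ := #(Finset.univ.filter fun i => x i ≠ 0)

end Pool.Agent.H56.FT
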