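import Pool.Agent.H56.FT.Tight

/-!
# Balanced integral points of maximal support
-/

set_option autoImplicit false
set_option maxHeartbeats 4000000

open Finset

namespace Pool.Agent.H56.FT

open Pool.Agent.H54.Frank Pool.Agent.H12.Fr

variable {V ι : Type*} [Fintype V] [DecidableEq V] [DecidableEq ι]

lemma bal_zero {f : Finset V → ℝ} (h : Data f) (c : V → ι) : Bal f c 0 := by
  refine ⟨fun i => Or.inl rfl, ⟨fun X => ?_, ?_⟩, fun C => ?_⟩
  · simpa using h.nonneg X
  · simpa using h.univ.symm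
  · simp

lemma exists_max {f : Finset V → ℝ} (h : Data f) (c : V → ι) :
    ∃ x, Bal f c x ∧ ∀ y, Bal f c y → supp y ≤ supp x := by
  classical
  set s : Set ℕ := {n | ∃ x, Bal f c x ∧ supp x = n} with hs
  have hne : s.Nonempty := ⟨_, 0, bal_zero h c, rfl⟩
  have hbd : BddAbove s := by
    refine ⟨Fintype.card V, ?_⟩
    rintro n ⟨x, -, rfl⟩
    exact Finset.card_le_univ _
  obtain ⟨x, hx, hn⟩ := Nat.sSup_mem hne hbd
  exact ⟨x, hx, fun y hy => hn ▸ le_csSup hbd ⟨y, hy, rfl⟩⟩

lemma bal_mv {f : Finset V → ℝ} (h : Data f) {c : V → ι} {x : V → ℝ} (hx : Bal f c x) {a b : V}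
    (hab : a ≠ b) (hc : c a = c b) (xa : x a = 0) (xb : x b = 0)
    (hsep : ∀ Y, Tight f x Y → a ∈ Y → b ∈ Y) : Bal f c (mv x a b) := by
  refine ⟨fun i => ?_, mv_mem h hx.1 hx.2.1 hsep, fun C => ?_⟩
  · by_cases h1 : i = a
    · right; left
      rw [h1]
      simp [mv, xa, hab]
    · by_cases h2 : i = b
      · right; right
        rw [h2]
        simp [mv, xb, hab.symm]
      · simpa [mv, h1, h2] using hx.1 i
  · rw [sum_mv, hx.2.2 C]
    by_cases h1 : c a = C
    · have h2 : c b = C := hc ▸ h1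
      simp [h1, h2]
    · have h2 : ¬ c b = C := fun h3 => h1 (hc.trans h3)
      simp [h1, h2]

lemma supp_mv {x : V → ℝ} {a b : V} (hab : a ≠ b) (xa : x a = 0) (xb : x b = 0) :
    supp x < supp (mv x a b) := by
  classical
  unfold supp
  refine Finset.card_lt_card ⟨fun i hi => ?_, fun hcon => ?_⟩
  · rw [Finset.mem_filter] at hi ⊢
    refine ⟨Finset.mem_univ _, ?_⟩
    have h1 : i ≠ a := fun h2 => hi.2 (h2 ▸ xa)
    have h2 : i ≠ b := fun h2 => hi.2 (h2 ▸ xb)
    simpa [mv, h1, h2] using hi.2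
  · have h1 : a ∈ Finset.univ.filter fun i => mv x a b i ≠ 0 := by
      rw [Finset.mem_filter]
      exact ⟨Finset.mem_univ _, by simp [mv, xa, hab]⟩
    have h2 := hcon h1
    rw [Finset.mem_filter] at h2
    exact h2.2 xa

/-- an element of a nontrivial block is the only zero of its class -/
lemma block_unique {f : Finset V → ℝ} (h : Data f) {c : V → ι} (hc : Twins f c) {x : V → ℝ}
    (hx : Bal f c x) (hmax : ∀ y, Bal f c y → supp y ≤ supp x) {S T : Finset V}
    (hb : Block f x S T) {a b : V} (ha : a ∈ T \ S) (hb' : b ∈ T \ S) (hab : a ≠ b) :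
    x a = 0 ∧ ∀ a', c a' = c a → a' ≠ a → x a' ≠ 0 := by
  have xa := hb.zero h hx.1 hx.2.1 ha hb' hab
  refine ⟨xa, fun a' hca hne xa' => ?_⟩
  have hsep : ∀ Y, Tight f x Y → a ∈ Y → a' ∈ Y := by
    by_cases hm : a' ∈ T \ S
    · exact hb.sep h hx.2.1 ha hm
    · have hba' : b ≠ a' := fun h1 => hm (h1 ▸ hb')
      intro Y hY haY
      by_contra haY'
      have hbY : b ∈ Y := hb.sep h hx.2.1 ha hb' Y hY haY
      have hY' := hY.swap hc (a := a) (b := a') hca.symm (xa.trans xa'.symm)
      have h1 : b ∈ Y.image (Equiv.swap a a') := by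
        rw [Finset.mem_image]
        exact ⟨b, hbY, Equiv.swap_apply_of_ne_of_ne hab.symm hba'⟩
      have h2 := hb.sep h hx.2.1 hb' ha _ hY' h1
      rw [Finset.mem_image] at h2
      obtain ⟨k, hk, hk'⟩ := h2
      have h3 : k = a' := by
        have := congrArg (Equiv.swap a a') hk'
        rwa [Equiv.swap_apply_self, Equiv.swap_apply_left] at this
      exact haY' (h3 ▸ hk)
  have h1 := hmax _ (bal_mv h hx hne.symm hca.symm xa xa' hsep)
  exact absurd (supp_mv hne.symm xa xa') (not_lt.2 h1)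

omit [Fintype V] [DecidableEq V] in
lemma even_of_sum {x : V → ℝ} {s : Finset V} (h1 : ∀ i ∈ s, x i = 1 ∨ x i = -1)
    (h2 : ∑ i ∈ s, x i = 0) : Even #s := by
  classical
  have e1 : #(s.filter fun i => x i = 1) + #(s.filter fun i => ¬ x i = 1) = #s :=
    Finset.card_filter_add_card_filter_not (s := s) (p := fun i => x i = 1)
  have e2 : ∑ i ∈ s, x i = ∑ i ∈ s.filter (fun i => x i = 1), x i +
      ∑ i ∈ s.filter (fun i => ¬ x i = 1), x i := (Finset.sum_filter_add_sum_filter_not s _ _).symm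
  have e3 : ∑ i ∈ s.filter (fun i => x i = 1), x i = #(s.filter fun i => x i = 1) := by
    rw [Finset.sum_congr rfl fun i hi => (Finset.mem_filter.1 hi).2]
    simp
  have e4 : ∑ i ∈ s.filter (fun i => ¬ x i = 1), x i = -(#(s.filter fun i => ¬ x i = 1) : ℝ) := by
    rw [Finset.sum_congr rfl fun i hi => (h1 i (Finset.mem_filter.1 hi).1).resolve_left
      (Finset.mem_filter.1 hi).2]
    simp
  rw [h2, e3, e4] at e2
  have e5 : #(s.filter fun i => x i = 1) = #(s.filter fun i => ¬ x i = 1) := by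
    have : (#(s.filter fun i => x i = 1) : ℝ) = #(s.filter fun i => ¬ x i = 1) := by linarith
    exact_mod_cast this
  exact ⟨#(s.filter fun i => x i = 1), by omega⟩

/-- the class of an element of a nontrivial block is odd -/
lemma block_odd {f : Finset V → ℝ} {c : V → ι} {x : V → ℝ} (hx : Bal f c x) {a : V}
    (xa : x a = 0) (hu : ∀ a', c a' = c a → a' ≠ a → x a' ≠ 0) :
    Odd #(Finset.univ.filter fun i => c i = c a) := by
  have ha : a ∈ Finset.univ.filter fun i => c i = c a := by simp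
  have h1 := hx.2.2 (c a)
  rw [← Finset.add_sum_erase _ _ ha, xa, zero_add] at h1
  have h2 : Even #((Finset.univ.filter fun i => c i = c a).erase a) := by
    refine even_of_sum (x := x) (fun i hi => ?_) h1
    rw [Finset.mem_erase, Finset.mem_filter] at hi
    exact (hx.1 i).resolve_left (hu i hi.2.2 hi.1)
  rw [← Finset.card_erase_add_one ha]
  exact h2.add_one

/-- the set of odd classes -/
def oddC (c : V → ι) : Finset ι :=
  (Finset.univ.image c).filter fun C => Odd #(Finset.univ.filter fun i => c i = C)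

lemma block_card {f : Finset V → ℝ} (h : Data f) {c : V → ι} (hc : Twins f c) {x : V → ℝ}
    (hx : Bal f c x) (hmax : ∀ y, Bal f c y → supp y ≤ supp x) {S T : Finset V}
    (hb : Block f x S T) (h2 : 1 < #(T \ S)) : #(T \ S) ≤ #(oddC c) := by
  have key : ∀ a ∈ T \ S, x a = 0 ∧ ∀ a', c a' = c a → a' ≠ a → x a' ≠ 0 := by
    intro a ha
    obtain ⟨b, hb1, hb2⟩ := Finset.exists_mem_ne h2 a
    exact block_unique h hc hx hmax hb ha hb1 hb2.symm
  refine Finset.card_le_card_of_injOn c (fun a ha => ?_) fun a ha b hb' hab => ?_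
  · have h3 := key a ha
    unfold oddC
    rw [Finset.mem_coe, Finset.mem_filter]
    exact ⟨Finset.mem_image_of_mem _ (Finset.mem_univ _), block_odd hx h3.1 h3.2⟩
  · by_contra hne
    exact (key a ha).2 b hab.symm (Ne.symm hne) (key b hb').1

end Pool.Agent.H56.FT
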